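import Mathlib

set_option autoImplicit false

/-!
The group `P = <s, t, z, u | s t s⁻¹ = r(z,u) t>` with `r(z,u) = (u z z)^(n+1) u (z u z)^(-n-1)`,
(adapted from `Pool.Agent.Helper867.PF.Grp`), realised as a semidirect product of a free group by the integers.
-/

namespace Pool.Agent.Y437.TL

/-- the parameters: the relator has an odd number `2 n + 3` of alternating factors, and `z` occurs
with the exponent `c + 1` -/
class Mm where
  /-- the parameter -/
  n : ℕ
  /-- the exponent -/
  c : ℕ

variable [Mm]

/-- the relator word for exponent one -/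
def rel0 {G : Type*} [Group G] (z u : G) : G :=
  (u * z * z) ^ (Mm.n + 1) * u * ((z * u * z) ^ (Mm.n + 1))⁻¹

/-- the relator word -/
def rel {G : Type*} [Group G] (z u : G) : G := rel0 (z ^ (Mm.c + 1)) u

theorem map_rel {G H : Type*} [Group G] [Group H] (f : G →* H) (z u : G) :
    f (rel z u) = rel (f z) (f u) := by simp [rel, rel0]

theorem rel_one_left {G : Type*} [Group G] (u : G) : rel 1 u = u := by
  simp only [rel, rel0, one_pow, mul_one, one_mul]
  rw [← pow_succ, pow_succ', mul_assoc, mul_inv_cancel, mul_one]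

/-- the contraction for exponent one -/
def ctr0 {G : Type*} [Group G] (z k u : G) : G :=
  k * (z * u * z) ^ (Mm.n + 1) * (z * z * (u * z * z) ^ Mm.n * u)⁻¹

/-- the contraction -/
def ctr {G : Type*} [Group G] (z k u : G) : G := ctr0 (z ^ (Mm.c + 1)) k u

theorem rel0_eq_iff {G : Type*} [Group G] (z u k : G) : rel0 z u = k ↔ u = ctr0 z k u := by
  unfold rel0 ctr0
  have e : (u * z * z) ^ (Mm.n + 1) * u = u * (z * z * (u * z * z) ^ Mm.n * u) := by
    rw [pow_succ']
    simp only [mul_assoc]
  rw [e, mul_inv_eq_iff_eq_mul, eq_mul_inv_iff_mul_eq]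

theorem rel_eq_iff {G : Type*} [Group G] (z u k : G) : rel z u = k ↔ u = ctr z k u :=
  rel0_eq_iff _ _ _

/-- the index set of the free generators of the kernel -/
abbrev Ix : Type := Option (ℤ × Bool)

/-- letters -/
def gz (i : ℤ) : FreeGroup Ix := FreeGroup.of (some (i, false))
/-- letters -/
def gu (i : ℤ) : FreeGroup Ix := FreeGroup.of (some (i, true))
/-- letter -/
def gt : FreeGroup Ix := FreeGroup.of none

/-- images of the letters under the automorphism -/
def thetaFun : Ix → FreeGroup Ix
  | none => rel (gz 0) (gu 0) * gt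
  | some (i, b) => FreeGroup.of (some (i + 1, b))

/-- images of the letters under the inverse automorphism -/
def thetaInvFun : Ix → FreeGroup Ix
  | none => (rel (gz (-1)) (gu (-1)))⁻¹ * gt
  | some (i, b) => FreeGroup.of (some (i - 1, b))

/-- the automorphism -/
def theta : MulAut (FreeGroup Ix) :=
  MonoidHom.toMulEquiv (FreeGroup.lift thetaFun) (FreeGroup.lift thetaInvFun)
    (by
      ext x
      rcases x with _ | ⟨i, b⟩
      · simp only [MonoidHom.comp_apply, FreeGroup.lift_apply_of, MonoidHom.id_apply, thetaFun]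
        rw [map_mul, map_rel]
        simp [gz, gu, gt, FreeGroup.lift_apply_of, thetaInvFun]
      · simp [FreeGroup.lift_apply_of, thetaFun, thetaInvFun])
    (by
      ext x
      rcases x with _ | ⟨i, b⟩
      · simp only [MonoidHom.comp_apply, FreeGroup.lift_apply_of, MonoidHom.id_apply, thetaInvFun]
        rw [map_mul, map_inv, map_rel]
        simp [gz, gu, gt, FreeGroup.lift_apply_of, thetaFun]
      · simp [FreeGroup.lift_apply_of, thetaFun, thetaInvFun])

theorem theta_of (x : Ix) : theta (FreeGroup.of x) = thetaFun x := by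
  show FreeGroup.lift thetaFun (FreeGroup.of x) = _
  rw [FreeGroup.lift_apply_of]

theorem theta_gz (i : ℤ) : theta (gz i) = gz (i + 1) := theta_of _
theorem theta_gu (i : ℤ) : theta (gu i) = gu (i + 1) := theta_of _
theorem theta_gt : theta gt = rel (gz 0) (gu 0) * gt := theta_of _

theorem theta_zpow_gz (n i : ℤ) : (theta ^ n) (gz i) = gz (i + n) := by
  induction n using Int.induction_on generalizing i with
  | zero => simp
  | succ n ih =>
    rw [zpow_add_one, MulAut.mul_apply, theta_gz, ih]
    congr 1; ring
  | pred n ih =>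
    rw [zpow_sub_one, MulAut.mul_apply]
    have : theta⁻¹ (gz i) = gz (i - 1) := by
      rw [MulAut.inv_apply, MulEquiv.symm_apply_eq, theta_gz, sub_add_cancel]
    rw [this, ih]
    congr 1; ring

theorem theta_zpow_gu (n i : ℤ) : (theta ^ n) (gu i) = gu (i + n) := by
  induction n using Int.induction_on generalizing i with
  | zero => simp
  | succ n ih =>
    rw [zpow_add_one, MulAut.mul_apply, theta_gu, ih]
    congr 1; ring
  | pred n ih =>
    rw [zpow_sub_one, MulAut.mul_apply]
    have : theta⁻¹ (gu i) = gu (i - 1) := by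
      rw [MulAut.inv_apply, MulEquiv.symm_apply_eq, theta_gu, sub_add_cancel]
    rw [this, ih]
    congr 1; ring

/-- the group -/
abbrev P : Type := FreeGroup Ix ⋊[zpowersHom (MulAut (FreeGroup Ix)) theta] Multiplicative ℤ

/-- generator -/
def ps : P := SemidirectProduct.inr (Multiplicative.ofAdd 1)
/-- generator -/
def pt : P := SemidirectProduct.inl gt
/-- generator -/
def pz : P := SemidirectProduct.inl (gz 0)
/-- generator -/
def pu : P := SemidirectProduct.inl (gu 0)

theorem ps_zpow (n : ℤ) : ps ^ n = (SemidirectProduct.inr (Multiplicative.ofAdd n) : P) := by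
  rw [ps, ← map_zpow, ← ofAdd_zsmul]; simp

theorem inl_theta_zpow (n : ℤ) (k : FreeGroup Ix) :
    (SemidirectProduct.inl ((theta ^ n) k) : P) = ps ^ n * SemidirectProduct.inl k * (ps ^ n)⁻¹ := by
  rw [ps_zpow, ← map_inv, ← SemidirectProduct.inl_aut]
  rfl

theorem inl_theta (k : FreeGroup Ix) :
    (SemidirectProduct.inl (theta k) : P) = ps * SemidirectProduct.inl k * ps⁻¹ := by
  have := inl_theta_zpow 1 k
  simpa using this

theorem rel_P : ps * pt * ps⁻¹ = rel pz pu * pt := by
  rw [pt, ← inl_theta, theta_gt, map_mul, map_rel]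
  rfl

theorem inl_gz (i : ℤ) : (SemidirectProduct.inl (gz i) : P) = ps ^ i * pz * (ps ^ i)⁻¹ := by
  rw [pz, ← inl_theta_zpow, theta_zpow_gz, zero_add]

theorem inl_gu (i : ℤ) : (SemidirectProduct.inl (gu i) : P) = ps ^ i * pu * (ps ^ i)⁻¹ := by
  rw [pu, ← inl_theta_zpow, theta_zpow_gu, zero_add]

/-- homomorphisms out of the group agree when they agree on the four generators -/
theorem hom_ext {G : Type*} [Group G] {f g : P →* G} (hs : f ps = g ps) (ht : f pt = g pt)
    (hz : f pz = g pz) (hu : f pu = g pu) : f = g := by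
  apply SemidirectProduct.hom_ext
  · apply FreeGroup.ext_hom
    rintro (_ | ⟨i, b⟩)
    · exact ht
    · cases b
      · show f (SemidirectProduct.inl (gz i)) = g (SemidirectProduct.inl (gz i))
        rw [inl_gz]; simp [hs, hz]
      · show f (SemidirectProduct.inl (gu i)) = g (SemidirectProduct.inl (gu i))
        rw [inl_gu]; simp [hs, hu]
  · ext
    exact hs

theorem conj_zpow {G : Type*} [Group G] (f : FreeGroup Ix →* G) (a : G)
    (h : ∀ k, f (theta k) = a * f k * a⁻¹) (n : ℤ) (k : FreeGroup Ix) :
    f ((theta ^ n) k) = a ^ n * f k * (a ^ n)⁻¹ := by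
  induction n using Int.induction_on generalizing k with
  | zero => simp
  | succ n ih =>
    rw [zpow_add_one, MulAut.mul_apply, ih, h, zpow_add_one]
    group
  | pred n ih =>
    rw [zpow_sub_one, MulAut.mul_apply, ih]
    have : f (theta⁻¹ k) = a⁻¹ * f k * a := by
      have h1 := h (theta⁻¹ k)
      rw [MulAut.apply_inv_self] at h1
      rw [h1]; group
    rw [this, zpow_sub_one]
    group

/-- the universal property: constructing homomorphisms -/
def liftK {G : Type*} [Group G] (f : FreeGroup Ix →* G) (a : G)
    (h : ∀ k, f (theta k) = a * f k * a⁻¹) : P →* G :=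
  SemidirectProduct.lift f (zpowersHom G a) (by
    intro g
    ext k
    show f ((theta ^ (Multiplicative.toAdd g)) _) = a ^ (Multiplicative.toAdd g) * f _ *
      (a ^ (Multiplicative.toAdd g))⁻¹
    exact conj_zpow f a h _ _)

theorem liftK_inl {G : Type*} [Group G] (f : FreeGroup Ix →* G) (a : G)
    (h : ∀ k, f (theta k) = a * f k * a⁻¹) (k : FreeGroup Ix) :
    liftK f a h (SemidirectProduct.inl k) = f k := by
  simp [liftK]

theorem liftK_ps {G : Type*} [Group G] (f : FreeGroup Ix →* G) (a : G)
    (h : ∀ k, f (theta k) = a * f k * a⁻¹) :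
    liftK f a h ps = a := by
  simp [liftK, ps]

/-- the map on letters -/
def liftFun {G : Type*} [Group G] (a b c d : G) : Ix → G
  | none => b
  | some (i, false) => a ^ i * c * (a ^ i)⁻¹
  | some (i, true) => a ^ i * d * (a ^ i)⁻¹

theorem liftFun_compat {G : Type*} [Group G] (a b c d : G) (h : a * b * a⁻¹ = rel c d * b)
    (k : FreeGroup Ix) :
    FreeGroup.lift (liftFun a b c d) (theta k) =
      a * FreeGroup.lift (liftFun a b c d) k * a⁻¹ := by
  have : (FreeGroup.lift (liftFun a b c d)).comp theta.toMonoidHom =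
      (MulAut.conj a).toMonoidHom.comp (FreeGroup.lift (liftFun a b c d)) := by
    apply FreeGroup.ext_hom
    rintro (_ | ⟨i, e⟩)
    · show FreeGroup.lift (liftFun a b c d) (theta gt) =
        a * FreeGroup.lift (liftFun a b c d) gt * a⁻¹
      rw [theta_gt, map_mul, map_rel]
      simp only [gz, gu, gt, FreeGroup.lift_apply_of, liftFun]
      rw [h]
      simp
    · show FreeGroup.lift (liftFun a b c d) (theta (FreeGroup.of (some (i, e)))) =
        a * FreeGroup.lift (liftFun a b c d) (FreeGroup.of (some (i, e))) * a⁻¹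
      rw [theta_of]
      simp only [thetaFun, FreeGroup.lift_apply_of]
      cases e
      · simp only [liftFun]
        rw [zpow_add_one, (Commute.self_zpow a i).eq.symm]
        group
      · simp only [liftFun]
        rw [zpow_add_one, (Commute.self_zpow a i).eq.symm]
        group
  exact DFunLike.congr_fun this k

/-- the universal property: constructing homomorphisms from images of the four generators -/
def liftP {G : Type*} [Group G] (a b c d : G) (h : a * b * a⁻¹ = rel c d * b) : P →* G :=
  liftK (FreeGroup.lift (liftFun a b c d)) a (liftFun_compat a b c d h)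

section
variable {G : Type*} [Group G] (a b c d : G) (h : a * b * a⁻¹ = rel c d * b)

@[simp] theorem liftP_ps : liftP a b c d h ps = a := liftK_ps _ _ _

@[simp] theorem liftP_pt : liftP a b c d h pt = b := by
  rw [liftP, pt, liftK_inl, gt, FreeGroup.lift_apply_of]; rfl

@[simp] theorem liftP_pz : liftP a b c d h pz = c := by
  rw [liftP, pz, liftK_inl, gz, FreeGroup.lift_apply_of]; simp [liftFun]

@[simp] theorem liftP_pu : liftP a b c d h pu = d := by
  rw [liftP, pu, liftK_inl, gu, FreeGroup.lift_apply_of]; simp [liftFun]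

end

/-- the four elements generate -/
theorem closure_eq_top : Subgroup.closure ({ps, pt, pz, pu} : Set P) = ⊤ := by
  rw [eq_top_iff]
  set S := Subgroup.closure ({ps, pt, pz, pu} : Set P)
  have hs : ps ∈ S := Subgroup.subset_closure (by simp)
  have ht : pt ∈ S := Subgroup.subset_closure (by simp)
  have hz : pz ∈ S := Subgroup.subset_closure (by simp)
  have hu : pu ∈ S := Subgroup.subset_closure (by simp)
  have h1 : (SemidirectProduct.inl : FreeGroup Ix →* P).range ≤ S := by
    rw [MonoidHom.range_eq_map, ← FreeGroup.closure_range_of, MonoidHom.map_closure,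
      Subgroup.closure_le]
    rintro _ ⟨_, ⟨x, rfl⟩, rfl⟩
    rcases x with _ | ⟨i, b⟩
    · exact ht
    · cases b
      · show (SemidirectProduct.inl (gz i) : P) ∈ S
        rw [inl_gz]
        exact S.mul_mem (S.mul_mem (S.zpow_mem hs _) hz) (S.inv_mem (S.zpow_mem hs _))
      · show (SemidirectProduct.inl (gu i) : P) ∈ S
        rw [inl_gu]
        exact S.mul_mem (S.mul_mem (S.zpow_mem hs _) hu) (S.inv_mem (S.zpow_mem hs _))
  intro x _
  rw [← SemidirectProduct.inl_left_mul_inr_right x]
  apply S.mul_mem (h1 ⟨_, rfl⟩)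
  have : (SemidirectProduct.inr x.right : P) = ps ^ (Multiplicative.toAdd x.right) := by
    rw [ps_zpow]; rfl
  rw [this]
  exact S.zpow_mem hs _

theorem P_fg : Group.FG P := by
  rw [Group.fg_def, Subgroup.fg_iff]
  exact ⟨_, closure_eq_top, by simp⟩

end Pool.Agent.Y437.TL
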