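import Mathlib
import Pool.Agent.Y437.TL.Grp

set_option autoImplicit false

/-!
The kernel `N` of the homomorphism from `P` to the integers which sends `z` to `1` and `s, t, u` to
`0` has torsion-free abelianization, and roots in `P / [N, N]` are not unique.
-/

namespace Pool.Agent.Y437.TL.Cyc

open Polynomial

/-- affine maps of a module -/
@[ext] structure Aff (S B : Type*) [Ring S] [AddCommGroup B] [Module S B] where
  /-- linear part -/
  a : Sˣ
  /-- translation part -/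
  v : B

namespace Aff

variable {S B : Type*} [Ring S] [AddCommGroup B] [Module S B]

instance : One (Aff S B) := ⟨⟨1, 0⟩⟩
instance : Mul (Aff S B) := ⟨fun x y => ⟨x.a * y.a, x.v + (x.a : S) • y.v⟩⟩
instance : Inv (Aff S B) := ⟨fun x => ⟨x.a⁻¹, -((x.a⁻¹ : Sˣ) : S) • x.v⟩⟩

theorem one_a : (1 : Aff S B).a = 1 := rfl
theorem one_v : (1 : Aff S B).v = 0 := rfl
theorem mul_a (x y : Aff S B) : (x * y).a = x.a * y.a := rfl
theorem mul_v (x y : Aff S B) : (x * y).v = x.v + (x.a : S) • y.v := rfl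
theorem inv_a (x : Aff S B) : (x⁻¹).a = x.a⁻¹ := rfl
theorem inv_v (x : Aff S B) : (x⁻¹).v = -((x.a⁻¹ : Sˣ) : S) • x.v := rfl

instance : Group (Aff S B) := Group.ofLeftAxioms
  (by
    intro x y z
    ext
    · simp [mul_a, mul_assoc]
    · simp [mul_a, mul_v, mul_smul, add_assoc])
  (by intro x; ext <;> simp [mul_a, mul_v, one_a, one_v])
  (by intro x; ext <;> simp [mul_a, mul_v, one_a, one_v, inv_a, inv_v])

/-- the linear part as a homomorphism -/
def lin : Aff S B →* Sˣ where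
  toFun := a
  map_one' := rfl
  map_mul' _ _ := rfl

theorem pow_a (x : Aff S B) (j : ℕ) : (x ^ j).a = x.a ^ j := by
  show lin (x ^ j) = _
  rw [map_pow]
  rfl

theorem pow_v (x : Aff S B) (j : ℕ) :
    (x ^ j).v = (∑ i ∈ Finset.range j, (x.a : S) ^ i) • x.v := by
  induction j with
  | zero => simp [one_v]
  | succ j ih =>
    rw [pow_succ, mul_v, ih, pow_a, Finset.sum_range_succ, add_smul, Units.val_pow_eq_pow_val]

end Aff

theorem geom_aux {S : Type*} [Ring S] (x : S) (j : ℕ) :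
    ∑ i ∈ Finset.range (2 * j + 1), (-x) ^ i =
      ∑ i ∈ Finset.range j, (x ^ 2) ^ i + (x ^ 2) ^ j - (∑ i ∈ Finset.range j, (x ^ 2) ^ i) * x := by
  induction j with
  | zero => simp
  | succ j ih =>
    have h : 2 * (j + 1) + 1 = 2 * j + 1 + 1 + 1 := by ring
    rw [h, Finset.sum_range_succ, Finset.sum_range_succ, ih, Finset.sum_range_succ]
    have e1 : (-x) ^ (2 * j + 1) = -((x ^ 2) ^ j * x) := by
      rw [pow_succ, pow_mul, neg_sq, mul_neg]
    have e2 : (-x) ^ (2 * j + 1 + 1) = (x ^ 2) ^ (j + 1) := by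
      rw [show 2 * j + 1 + 1 = 2 * (j + 1) by ring, pow_mul, neg_sq]
    rw [e1, e2, add_mul]
    abel

variable [Mm]

/-- the exponent -/
abbrev kk : ℕ := 2 * Mm.n + 3

/-- the alternating sum -/
def FF {S : Type*} [Ring S] (x : S) : S := ∑ i ∈ Finset.range kk, (-x) ^ i

/-- the alternating sum of a power -/
def GG {S : Type*} [Ring S] (x : S) : S := FF (x ^ (Mm.c + 1))

section Rel

variable {S B : Type*} [Ring S] [AddCommGroup B] [Module S B]

theorem rel0_aff (θ : Sˣ) (w : B) :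
    rel0 (⟨θ, 0⟩ : Aff S B) ⟨1, w⟩ = ⟨1, FF (θ : S) • w⟩ := by
  unfold rel0
  rw [mul_inv_eq_iff_eq_mul]
  have hc : Commute (θ : S) (∑ i ∈ Finset.range (Mm.n + 1), ((θ : S) ^ 2) ^ i) := by
    apply Commute.sum_right
    intro i _
    exact ((Commute.refl (θ : S)).pow_right 2).pow_right i
  have hk : kk = 2 * (Mm.n + 1) + 1 := by unfold kk; ring
  ext1
  · simp only [Aff.mul_a, Aff.pow_a]
    simp
  · simp only [Aff.mul_v, Aff.mul_a, Aff.pow_a, Aff.pow_v]
    simp only [FF, hk, geom_aux, Units.val_pow_eq_pow_val, Units.val_one, one_mul,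
      smul_zero, add_zero, zero_add, mul_one, one_smul, ← sq, sub_smul, add_smul, mul_smul]
    abel

theorem pow_zero_v (θ : Sˣ) (j : ℕ) : (⟨θ, 0⟩ : Aff S B) ^ j = ⟨θ ^ j, 0⟩ := by
  ext1
  · exact Aff.pow_a _ _
  · rw [Aff.pow_v, smul_zero]

theorem rel_aff (θ : Sˣ) (w : B) :
    rel (⟨θ, 0⟩ : Aff S B) ⟨1, w⟩ = ⟨1, GG (θ : S) • w⟩ := by
  unfold rel GG
  rw [pow_zero_v, rel0_aff, Units.val_pow_eq_pow_val]

end Rel

/-! ### the ring -/

/-- the polynomial -/
noncomputable def ff : ℤ[X] := GG X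

theorem add_one_mul_FF {S : Type*} [CommRing S] (x : S) : (x + 1) * FF x = x ^ kk + 1 := by
  have h := mul_geom_sum (-x) kk
  have h2 : (-x) ^ kk = - x ^ kk := by
    apply Odd.neg_pow
    exact ⟨Mm.n + 1, by unfold kk; ring⟩
  rw [h2] at h
  unfold FF
  linear_combination -h

/-- the exponent of the root -/
abbrev KK : ℕ := (Mm.c + 1) * kk

theorem KK_pos : 0 < KK := by
  unfold KK kk
  positivity

theorem X_add_one_mul : (X ^ (Mm.c + 1) + 1) * ff = (X ^ KK + 1 : ℤ[X]) := by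
  unfold ff GG
  rw [add_one_mul_FF, ← pow_mul]

theorem ff_monic : (ff : ℤ[X]).Monic := by
  apply Polynomial.Monic.of_mul_monic_left (p := X ^ (Mm.c + 1) + 1)
  · exact monic_X_pow_add_C 1 (by omega)
  · rw [X_add_one_mul]
    exact monic_X_pow_add_C 1 KK_pos.ne'

/-- the third summand -/
abbrev M3 : Type := AdjoinRoot (ff : ℤ[X])

/-- Laurent polynomials -/
abbrev La : Type := LaurentPolynomial ℤ

theorem M3_tf (j : ℕ) (hj : j ≠ 0) (x : M3) (h : j • x = 0) : x = 0 := by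
  have := ff_monic.free_adjoinRoot
  have h2 : (j : ℤ) • x = 0 := by
    rw [natCast_zsmul]
    exact h
  rcases smul_eq_zero.1 h2 with h3 | h3
  · exact absurd (by exact_mod_cast h3) hj
  · exact h3

omit [Mm] in
theorem La_tf (j : ℕ) (hj : j ≠ 0) (x : La) (h : j • x = 0) : x = 0 := by
  rcases smul_eq_zero.1 h with h4 | h4
  · exact absurd h4 hj
  · exact h4

/-- the root -/
noncomputable def rt : M3 := AdjoinRoot.root ff

theorem map_FF {S S' : Type*} [Ring S] [Ring S'] (φ : S →+* S') (x : S) : φ (FF x) = FF (φ x) := by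
  unfold FF
  rw [map_sum]
  simp

theorem map_GG {S S' : Type*} [Ring S] [Ring S'] (φ : S →+* S') (x : S) : φ (GG x) = GG (φ x) := by
  unfold GG
  rw [map_FF, map_pow]

theorem GG_rt : GG rt = 0 := by
  have h : AdjoinRoot.mk (ff : ℤ[X]) ff = 0 := AdjoinRoot.mk_self
  unfold ff at h
  rw [map_GG, AdjoinRoot.mk_X] at h
  exact h

theorem rt_pow : rt ^ KK = -1 := by
  have h : AdjoinRoot.mk (ff : ℤ[X]) ((X ^ (Mm.c + 1) + 1) * ff) = 0 := by
    rw [map_mul, AdjoinRoot.mk_self, mul_zero]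
  rw [X_add_one_mul, map_add, map_pow, AdjoinRoot.mk_X, map_one] at h
  exact eq_neg_of_add_eq_zero_left h

/-- a primitive root of unity -/
noncomputable def zt : ℂ := Complex.exp (2 * Real.pi * Complex.I / ((2 * KK : ℕ) : ℂ))

theorem zt_prim : IsPrimitiveRoot zt (2 * KK) :=
  Complex.isPrimitiveRoot_exp _ (by have := KK_pos; omega)

theorem zt_KK : zt ^ KK = -1 := by
  have h1 : (zt ^ KK) ^ 2 = 1 := by
    rw [← pow_mul, mul_comm]
    exact zt_prim.pow_eq_one
  have h0 : (zt ^ KK - 1) * (zt ^ KK + 1) = 0 := by linear_combination h1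
  rcases mul_eq_zero.1 h0 with h2 | h2
  · exfalso
    have h3 := zt_prim.dvd_of_pow_eq_one _ (sub_eq_zero.1 h2)
    have h4 := Nat.le_of_dvd KK_pos h3
    have := KK_pos
    omega
  · exact eq_neg_of_add_eq_zero_left h2

theorem GG_zt : GG zt = 0 := by
  have h := add_one_mul_FF (zt ^ (Mm.c + 1))
  rw [← pow_mul, show (Mm.c + 1) * kk = KK from rfl, zt_KK, neg_add_cancel] at h
  rcases mul_eq_zero.1 h with h1 | h1
  · exfalso
    have h2 : zt ^ (2 * (Mm.c + 1)) = 1 := by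
      rw [mul_comm, pow_mul, eq_neg_of_add_eq_zero_left h1]
      norm_num
    have h3 := Nat.le_of_dvd (by omega) (zt_prim.dvd_of_pow_eq_one _ h2)
    unfold KK kk at h3
    nlinarith
  · exact h1

/-- evaluation at the root of unity -/
theorem mk_zero (p : ℤ[X]) (h : AdjoinRoot.mk ff p = 0) : aeval zt p = 0 := by
  rw [AdjoinRoot.mk_eq_zero] at h
  obtain ⟨q, rfl⟩ := h
  have h1 : aeval zt (ff : ℤ[X]) = 0 := by
    have h2 := map_GG (aeval zt : ℤ[X] →ₐ[ℤ] ℂ).toRingHom X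
    have h3 : (aeval zt : ℤ[X] →ₐ[ℤ] ℂ).toRingHom X = zt := aeval_X zt
    rw [h3, GG_zt] at h2
    exact h2
  rw [map_mul, h1, zero_mul]

/-- the unit in the third factor -/
noncomputable def rtU : M3ˣ where
  val := rt
  inv := -rt ^ (KK - 1)
  val_inv := by
    rw [mul_neg, ← pow_succ', show KK - 1 + 1 = KK by have := KK_pos; omega, rt_pow, neg_neg]
  inv_val := by
    rw [neg_mul, ← pow_succ, show KK - 1 + 1 = KK by have := KK_pos; omega, rt_pow, neg_neg]

/-- the unit in the Laurent polynomials -/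
noncomputable def TU : Laˣ where
  val := LaurentPolynomial.T 1
  inv := LaurentPolynomial.T (-1)
  val_inv := by rw [← LaurentPolynomial.T_add]; simp
  inv_val := by rw [← LaurentPolynomial.T_add]; simp

/-- the ring -/
abbrev RR : Type := La × La × M3

/-- the unit -/
noncomputable def th : RRˣ := MulEquiv.prodUnits.symm (TU, MulEquiv.prodUnits.symm (TU, rtU))

theorem th_val : (th : RR) = (LaurentPolynomial.T 1, LaurentPolynomial.T 1, rt) := rfl

theorem RR_tf (j : ℕ) (hj : j ≠ 0) (x : RR) (h : j • x = 0) : x = 0 := by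
  obtain ⟨a, b, c⟩ := x
  have h1 : j • a = 0 := congrArg Prod.fst h
  have h2 : j • b = 0 := congrArg (fun y : RR => y.2.1) h
  have h3 : j • c = 0 := congrArg (fun y : RR => y.2.2) h
  rw [La_tf j hj a h1, La_tf j hj b h2, M3_tf j hj c h3]
  rfl

theorem GG_th : (GG (th : RR)).2.2 = 0 := by
  have h := map_GG ((RingHom.snd La M3).comp (RingHom.snd La (La × M3))) (th : RR)
  exact h.trans GG_rt

/-! ### the homomorphisms -/

/-- the projection to the integers -/
def pr : P →* Multiplicative ℤ := liftP 1 1 (Multiplicative.ofAdd 1) 1 (by simp [rel, rel0])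

@[simp] theorem pr_ps : pr ps = 1 := by simp [pr]
@[simp] theorem pr_pt : pr pt = 1 := by simp [pr]
@[simp] theorem pr_pz : pr pz = Multiplicative.ofAdd 1 := by simp [pr]
@[simp] theorem pr_pu : pr pu = 1 := by simp [pr]

omit [Mm] in
theorem aff_comm {S B : Type*} [Ring S] [AddCommGroup B] [Module S B] (v w : B) :
    (⟨1, v⟩ : Aff S B) * ⟨1, w⟩ * (⟨1, v⟩ : Aff S B)⁻¹ = ⟨1, w⟩ := by
  rw [mul_inv_eq_iff_eq_mul]
  ext1
  · rfl
  · simp [Aff.mul_v, add_comm]

/-- the homomorphism to the affine group -/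
noncomputable def Phi : P →* Aff RR RR :=
  liftP ⟨1, (1, 0, 0)⟩ ⟨1, (0, 1, 0)⟩ ⟨th, 0⟩ ⟨1, (0, 0, 1)⟩ (by
    have h : (GG (th : RR)) • ((0, 0, 1) : RR) = 0 := by
      rw [smul_eq_mul]
      ext1
      · exact mul_zero _
      · ext1
        · exact mul_zero _
        · show (GG (th : RR)).2.2 * 1 = 0
          rw [GG_th, zero_mul]
    rw [aff_comm, rel_aff, h]
    exact (one_mul _).symm)

theorem Phi_ps : Phi ps = ⟨1, (1, 0, 0)⟩ := by simp [Phi]
theorem Phi_pt : Phi pt = ⟨1, (0, 1, 0)⟩ := by simp [Phi]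
theorem Phi_pz : Phi pz = ⟨th, 0⟩ := by simp [Phi]
theorem Phi_pu : Phi pu = ⟨1, (0, 0, 1)⟩ := by simp [Phi]

theorem Phi_a (g : P) : (Phi g).a = th ^ (Multiplicative.toAdd (pr g)) := by
  have h : Aff.lin.comp Phi = (zpowersHom RRˣ th).comp pr := by
    apply hom_ext
    · simp only [MonoidHom.comp_apply, Phi_ps, pr_ps, map_one]; rfl
    · simp only [MonoidHom.comp_apply, Phi_pt, pr_pt, map_one]; rfl
    · simp only [MonoidHom.comp_apply, Phi_pz, pr_pz, zpowersHom_apply, toAdd_ofAdd, zpow_one]; rfl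
    · simp only [MonoidHom.comp_apply, Phi_pu, pr_pu, map_one]; rfl
  exact DFunLike.congr_fun h g

theorem Phi_a_ker (g : P) (hg : g ∈ pr.ker) : (Phi g).a = 1 := by
  rw [Phi_a, (MonoidHom.mem_ker).1 hg, toAdd_one, zpow_zero]

/-- the abelianized kernel -/
abbrev AA : Type := Additive (Abelianization pr.ker)

/-- its endomorphism ring -/
abbrev SS' : Type := Module.End ℤ AA

/-- the class of an element of the kernel -/
def cN (n : pr.ker) : AA := Additive.ofMul (Abelianization.of n)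

theorem cN_mul (m n : pr.ker) : cN (m * n) = cN m + cN n := by
  unfold cN
  rw [map_mul, ofMul_mul]

theorem cN_one : cN 1 = 0 := by
  unfold cN
  rw [map_one, ofMul_one]

theorem cN_surj (x : AA) : ∃ n, cN n = x := by
  obtain ⟨n, hn⟩ := QuotientGroup.mk_surjective (Additive.toMul x)
  exact ⟨n, hn⟩

/-- the conjugation action -/
def cc : P →* SS' where
  toFun g := (MonoidHom.toAdditive
    (Abelianization.map (MulAut.conjNormal g : MulAut pr.ker).toMonoidHom)).toIntLinearMap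
  map_one' := by
    apply LinearMap.ext
    intro x
    obtain ⟨n, rfl⟩ := cN_surj x
    show cN (MulAut.conjNormal (1 : P) n) = cN n
    rw [map_one]; rfl
  map_mul' g h := by
    apply LinearMap.ext
    intro x
    obtain ⟨n, rfl⟩ := cN_surj x
    show cN (MulAut.conjNormal (g * h) n) = cN (MulAut.conjNormal g (MulAut.conjNormal h n))
    rw [map_mul]; rfl

theorem cc_cN (g : P) (n : pr.ker) : cc g (cN n) = cN (MulAut.conjNormal g n) := rfl

theorem cc_ker (g : P) (hg : g ∈ pr.ker) : cc g = 1 := by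
  apply LinearMap.ext
  intro x
  obtain ⟨n, rfl⟩ := cN_surj x
  rw [cc_cN]
  have e : MulAut.conjNormal g n = (⟨g, hg⟩ : pr.ker) * n * (⟨g, hg⟩ : pr.ker)⁻¹ := by
    apply Subtype.ext
    rw [MulAut.conjNormal_apply]
    rfl
  rw [e, cN_mul, cN_mul, add_comm (cN _) (cN n), add_assoc, ← cN_mul, mul_inv_cancel, cN_one,
    add_zero]
  rfl

theorem nf_mem (g : P) : g * (pz ^ (Multiplicative.toAdd (pr g)))⁻¹ ∈ pr.ker := by
  rw [MonoidHom.mem_ker, map_mul, map_inv, map_zpow, pr_pz, ← ofAdd_zsmul]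
  simp

/-- the universal crossed homomorphism -/
def Cl : P →* Aff SS' AA where
  toFun g := ⟨MonoidHom.toHomUnits cc g, cN ⟨_, nf_mem g⟩⟩
  map_one' := by
    ext1
    · exact map_one _
    · show cN ⟨_, nf_mem 1⟩ = 0
      rw [← cN_one]
      refine congrArg cN (Subtype.ext ?_)
      show (1 : P) * (pz ^ (Multiplicative.toAdd (pr 1)))⁻¹ = 1
      rw [map_one, toAdd_one, zpow_zero, inv_one, mul_one]
  map_mul' g h := by
    ext1
    · exact map_mul _ _ _
    · show cN ⟨_, nf_mem (g * h)⟩ = cN ⟨_, nf_mem g⟩ + cc g (cN ⟨_, nf_mem h⟩)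
      rw [cc_cN, add_comm, ← cN_mul]
      refine congrArg cN (Subtype.ext ?_)
      rw [Subgroup.coe_mul, MulAut.conjNormal_apply]
      show g * h * (pz ^ (Multiplicative.toAdd (pr (g * h))))⁻¹ =
        g * (h * (pz ^ (Multiplicative.toAdd (pr h)))⁻¹) * g⁻¹ *
          (g * (pz ^ (Multiplicative.toAdd (pr g)))⁻¹)
      rw [map_mul, toAdd_mul, add_comm, zpow_add]
      group

theorem Cl_ker (g : P) (hg : g ∈ pr.ker) : Cl g = ⟨1, cN ⟨g, hg⟩⟩ := by
  ext1
  · apply Units.ext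
    exact cc_ker g hg
  · show cN ⟨_, nf_mem g⟩ = cN ⟨g, hg⟩
    refine congrArg cN (Subtype.ext ?_)
    show g * (pz ^ (Multiplicative.toAdd (pr g)))⁻¹ = g
    rw [(MonoidHom.mem_ker).1 hg, toAdd_one, zpow_zero, inv_one, mul_one]

theorem Cl_pz : Cl pz = ⟨MonoidHom.toHomUnits cc pz, 0⟩ := by
  ext1
  · rfl
  · show cN ⟨_, nf_mem pz⟩ = 0
    rw [← cN_one]
    refine congrArg cN (Subtype.ext ?_)
    show pz * (pz ^ (Multiplicative.toAdd (pr pz)))⁻¹ = 1
    rw [pr_pz, toAdd_ofAdd, zpow_one, mul_inv_cancel]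

theorem ps_mem : ps ∈ pr.ker := pr_ps
theorem pt_mem : pt ∈ pr.ker := pr_pt
theorem pu_mem : pu ∈ pr.ker := pr_pu

/-- class of `s` -/
def ws : AA := cN ⟨ps, ps_mem⟩
/-- class of `t` -/
def wt : AA := cN ⟨pt, pt_mem⟩
/-- class of `u` -/
def wu : AA := cN ⟨pu, pu_mem⟩

/-- the action of `z` -/
def tau : SS' := cc pz

theorem Cl_ps : Cl ps = ⟨1, ws⟩ := Cl_ker ps ps_mem
theorem Cl_pt : Cl pt = ⟨1, wt⟩ := Cl_ker pt pt_mem
theorem Cl_pu : Cl pu = ⟨1, wu⟩ := Cl_ker pu pu_mem

theorem GG_tau : GG tau • wu = 0 := by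
  have h : Cl ps * Cl pt * (Cl ps)⁻¹ = rel (Cl pz) (Cl pu) * Cl pt := by
    rw [← map_mul Cl ps pt, ← map_inv Cl ps, ← map_mul Cl (ps * pt) ps⁻¹, rel_P,
      map_mul Cl (rel pz pu) pt, map_rel]
  have e : rel (Cl pz) (Cl pu) = ⟨1, GG ((MonoidHom.toHomUnits cc pz : SS'ˣ) : SS') • wu⟩ := by
    rw [Cl_pz, Cl_pu]
    exact rel_aff _ _
  rw [e, Cl_ps, Cl_pt, aff_comm] at h
  have h2 : wt = GG tau • wu + (((1 : SS'ˣ) : SS') • wt) := congrArg Aff.v h
  rw [Units.val_one, one_smul] at h2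
  exact left_eq_add.1 (h2.trans (add_comm _ _))

/-- the action of the Laurent polynomials -/
noncomputable def rho : La →ₐ[ℤ] SS' :=
  AddMonoidAlgebra.lift ℤ SS' ℤ (cc.comp (zpowersHom P pz))

theorem rho_T : rho (LaurentPolynomial.T 1) = tau := by
  unfold rho LaurentPolynomial.T tau
  rw [AddMonoidAlgebra.lift_single]
  simp

/-- the map on the third summand -/
noncomputable def psi3 (x : M3) : AA :=
  (aeval tau (Function.surjInv (AdjoinRoot.mk_surjective (g := (ff : ℤ[X]))) x)) • wu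

theorem psi3_mk (p : ℤ[X]) : psi3 (AdjoinRoot.mk ff p) = (aeval tau p) • wu := by
  unfold psi3
  set q := Function.surjInv (AdjoinRoot.mk_surjective (g := (ff : ℤ[X]))) (AdjoinRoot.mk ff p)
  have hq : AdjoinRoot.mk (ff : ℤ[X]) q = AdjoinRoot.mk ff p := Function.surjInv_eq _ _
  rw [AdjoinRoot.mk_eq_mk] at hq
  obtain ⟨r, hr⟩ := hq
  have h1 : aeval tau (q - p) • wu = 0 := by
    rw [hr, mul_comm, map_mul, mul_smul]
    have h2 : aeval tau (ff : ℤ[X]) = GG tau := by
      have h3 := map_GG (aeval tau : ℤ[X] →ₐ[ℤ] SS').toRingHom X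
      have h4 : (aeval tau : ℤ[X] →ₐ[ℤ] SS').toRingHom X = tau := aeval_X tau
      rw [h4] at h3
      exact h3
    rw [h2, GG_tau, smul_zero]
  rw [map_sub, sub_smul, sub_eq_zero] at h1
  exact h1

theorem psi3_add (x y : M3) : psi3 (x + y) = psi3 x + psi3 y := by
  obtain ⟨p, rfl⟩ := AdjoinRoot.mk_surjective x
  obtain ⟨q, rfl⟩ := AdjoinRoot.mk_surjective y
  rw [← map_add, psi3_mk, psi3_mk, psi3_mk, map_add, add_smul]

theorem psi3_rt (x : M3) : psi3 (rt * x) = tau • psi3 x := by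
  obtain ⟨p, rfl⟩ := AdjoinRoot.mk_surjective x
  unfold rt
  rw [← AdjoinRoot.mk_X, ← map_mul, psi3_mk, psi3_mk, map_mul, aeval_X, mul_smul]

theorem psi3_zero : psi3 0 = 0 := by
  rw [← map_zero (AdjoinRoot.mk (ff : ℤ[X])), psi3_mk, map_zero, zero_smul]

theorem psi3_one : psi3 1 = wu := by
  rw [← map_one (AdjoinRoot.mk (ff : ℤ[X])), psi3_mk, map_one, one_smul]

/-- the comparison map -/
noncomputable def psi : RR →+ AA where
  toFun x := rho x.1 • ws + rho x.2.1 • wt + psi3 x.2.2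
  map_zero' := by
    show rho (0 : La) • ws + rho (0 : La) • wt + psi3 0 = 0
    rw [map_zero, zero_smul, zero_smul, psi3_zero, add_zero, add_zero]
  map_add' x y := by
    show rho (x.1 + y.1) • ws + rho (x.2.1 + y.2.1) • wt + psi3 (x.2.2 + y.2.2) = _
    rw [map_add, map_add, psi3_add, add_smul, add_smul]
    abel

theorem psi_apply (a b : La) (c : M3) : psi (a, b, c) = rho a • ws + rho b • wt + psi3 c := rfl

theorem psi_th (x : RR) : psi ((th : RR) • x) = tau • psi x := by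
  obtain ⟨a, b, c⟩ := x
  show psi (LaurentPolynomial.T 1 * a, LaurentPolynomial.T 1 * b, rt * c) = _
  rw [psi_apply, psi_apply, map_mul, map_mul, rho_T, psi3_rt, mul_smul, mul_smul, smul_add,
    smul_add]

theorem key (g : P) : (∀ x : RR, psi (((Phi g).a : RR) • x) = cc g • psi x) ∧
    (Cl g).v = psi (Phi g).v := by
  have hg : g ∈ Subgroup.closure ({ps, pt, pz, pu} : Set P) := by
    rw [closure_eq_top]; trivial
  induction hg using Subgroup.closure_induction with
  | mem g hg =>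
    simp only [Set.mem_insert_iff, Set.mem_singleton_iff] at hg
    rcases hg with rfl | rfl | rfl | rfl
    · refine ⟨fun x => ?_, ?_⟩
      · rw [Phi_ps, cc_ker _ ps_mem, Units.val_one, one_smul, one_smul]
      · rw [Cl_ker _ ps_mem, Phi_ps, psi_apply, map_one, map_zero, psi3_zero, one_smul, zero_smul,
          add_zero, add_zero]
        rfl
    · refine ⟨fun x => ?_, ?_⟩
      · rw [Phi_pt, cc_ker _ pt_mem, Units.val_one, one_smul, one_smul]
      · rw [Cl_ker _ pt_mem, Phi_pt, psi_apply, map_one, map_zero, psi3_zero, one_smul, zero_smul,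
          add_zero, zero_add]
        rfl
    · refine ⟨fun x => ?_, ?_⟩
      · rw [Phi_pz]
        exact psi_th x
      · rw [Cl_pz, Phi_pz, map_zero]
    · refine ⟨fun x => ?_, ?_⟩
      · rw [Phi_pu, cc_ker _ pu_mem, Units.val_one, one_smul, one_smul]
      · rw [Cl_ker _ pu_mem, Phi_pu, psi_apply, map_zero, psi3_one, zero_smul, zero_smul, zero_add,
          zero_add]
        rfl
  | one =>
    refine ⟨fun x => ?_, ?_⟩
    · rw [map_one Phi, map_one cc, Aff.one_a, Units.val_one, one_smul, one_smul]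
    · rw [map_one Phi, map_one Cl, Aff.one_v, Aff.one_v, map_zero]
  | mul g h _ _ ihg ihh =>
    refine ⟨fun x => ?_, ?_⟩
    · rw [map_mul Phi g h, map_mul cc g h, Aff.mul_a, Units.val_mul, mul_smul, mul_smul, ihg.1,
        ihh.1]
    · rw [map_mul Cl g h, map_mul Phi g h, Aff.mul_v, Aff.mul_v, map_add, ihg.1, ← ihg.2, ← ihh.2]
      rfl
  | inv g _ ih =>
    have h1 : ∀ x : RR, psi (((Phi g⁻¹).a : RR) • x) = cc g⁻¹ • psi x := by
      intro x
      have h2 := ih.1 (((Phi g⁻¹).a : RR) • x)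
      rw [← mul_smul, ← Units.val_mul, ← Aff.mul_a, ← map_mul Phi g g⁻¹, mul_inv_cancel,
        map_one Phi, Aff.one_a, Units.val_one, one_smul] at h2
      rw [h2, ← mul_smul, ← map_mul cc g⁻¹ g, inv_mul_cancel, map_one cc, one_smul]
    refine ⟨h1, ?_⟩
    have h3 : (Cl g⁻¹).v = -(cc g⁻¹ • (Cl g).v) := by
      rw [map_inv Cl, Aff.inv_v, neg_smul]
      rfl
    have h4 : (Phi g⁻¹).v = -(((Phi g⁻¹).a : RR) • (Phi g).v) := by
      rw [map_inv Phi, Aff.inv_v, Aff.inv_a, neg_smul]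
    rw [h3, h4, map_neg, h1, ih.2]

theorem cN_eq (g : P) (hg : g ∈ pr.ker) : cN ⟨g, hg⟩ = psi (Phi g).v := by
  rw [← (key g).2, Cl_ker g hg]

theorem mem_comm (g : P) (hg : g ∈ pr.ker) (h : (Phi g).v = 0) : g ∈ ⁅pr.ker, pr.ker⁆ := by
  have h1 : cN ⟨g, hg⟩ = 0 := by rw [cN_eq, h, map_zero]
  have h5 : (⟨g, hg⟩ : pr.ker) ∈ commutator pr.ker := by
    rw [← Abelianization.ker_of]
    exact h1
  rw [← Subgroup.map_subtype_commutator]
  exact ⟨⟨g, hg⟩, h5, rfl⟩

/-- the translation part on the kernel -/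
noncomputable def vv : pr.ker →* Multiplicative RR where
  toFun n := Multiplicative.ofAdd (Phi n.1).v
  map_one' := by
    show Multiplicative.ofAdd (Phi 1).v = 1
    rw [map_one]; rfl
  map_mul' m n := by
    show Multiplicative.ofAdd (Phi (m.1 * n.1)).v = _
    rw [map_mul, Aff.mul_v, Phi_a_ker m.1 m.2, Units.val_one, one_smul, ofAdd_add]

theorem ker_torsionFree (x : Abelianization pr.ker) (hx : IsOfFinOrder x) : x = 1 := by
  obtain ⟨n, hn⟩ := cN_surj (Additive.ofMul x)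
  have hn' : Abelianization.of n = x := hn
  subst hn'
  rw [isOfFinOrder_iff_pow_eq_one] at hx
  obtain ⟨j, hj, hx⟩ := hx
  have h1 : Abelianization.lift vv (Abelianization.of n) = vv n := Abelianization.lift_apply_of _ _
  have h2 : (vv n) ^ j = 1 := by
    rw [← h1, ← map_pow, hx, map_one]
  have h4 : j • (Phi n.1).v = 0 := h2
  have h5 := RR_tf j hj.ne' _ h4
  have h6 := cN_eq n.1 n.2
  rw [h5, map_zero] at h6
  exact h6

theorem pr_surj : Function.Surjective pr := by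
  intro x
  refine ⟨pz ^ (Multiplicative.toAdd x), ?_⟩
  rw [map_zpow, pr_pz, ← ofAdd_zsmul]
  simp

theorem mk_eq (g h : P) (h1 : pr g = pr h) (h2 : (Phi g).v = (Phi h).v) :
    (QuotientGroup.mk g : P ⧸ ⁅pr.ker, pr.ker⁆) = QuotientGroup.mk h := by
  have ha : (Phi g).a = (Phi h).a := by rw [Phi_a, Phi_a, h1]
  have h3 : Phi g = Phi h := Aff.ext ha h2
  rw [QuotientGroup.eq]
  apply mem_comm
  · rw [MonoidHom.mem_ker, map_mul, map_inv, h1, inv_mul_cancel]
  · rw [map_mul, map_inv, h3, inv_mul_cancel]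
    rfl

theorem comm_v (g : P) (hg : g ∈ ⁅pr.ker, pr.ker⁆) : (Phi g).v = 0 := by
  rw [← Subgroup.map_subtype_commutator] at hg
  obtain ⟨n, hn, rfl⟩ := hg
  have h1 : vv n = 1 := by
    have h2 : commutator pr.ker ≤ vv.ker := Abelianization.commutator_subset_ker vv
    exact h2 hn
  exact h1

/-- the powers of the two elements agree if and only if a geometric sum vanishes -/
theorem pow_iff (d j : ℕ) :
    (QuotientGroup.mk (pz ^ d) : P ⧸ ⁅pr.ker, pr.ker⁆) ^ j = (QuotientGroup.mk (pu * pz ^ d)) ^ j ↔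
      ∑ i ∈ Finset.range j, (rt ^ d) ^ i = 0 := by
  have e1 : Phi (pz ^ d) = ⟨th ^ d, 0⟩ := by
    rw [map_pow, Phi_pz, pow_zero_v]
  have e2 : Phi (pu * pz ^ d) = ⟨th ^ d, (0, 0, 1)⟩ := by
    rw [map_mul, e1, Phi_pu]
    ext1
    · rw [Aff.mul_a, one_mul]
    · rw [Aff.mul_v, smul_zero, add_zero]
  have v1 : (Phi ((pz ^ d) ^ j)).v = 0 := by
    rw [map_pow, e1, Aff.pow_v, smul_zero]
  have v2 : (Phi ((pu * pz ^ d) ^ j)).v = (0, 0, ∑ i ∈ Finset.range j, (rt ^ d) ^ i) := by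
    rw [map_pow, e2, Aff.pow_v]
    have h := map_sum ((RingHom.snd La M3).comp (RingHom.snd La (La × M3)))
      (fun i => (((th ^ d : RRˣ) : RR)) ^ i) (Finset.range j)
    rw [smul_eq_mul]
    ext1
    · exact mul_zero _
    · ext1
      · exact mul_zero _
      · have h2 : (∑ i ∈ Finset.range j, (((th ^ d : RRˣ) : RR)) ^ i).2.2 =
            ∑ i ∈ Finset.range j, (rt ^ d) ^ i := h
        show (∑ i ∈ Finset.range j, (((th ^ d : RRˣ) : RR)) ^ i).2.2 * 1 = _
        rw [h2, mul_one]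
  have hp : pr ((pz ^ d) ^ j) = pr ((pu * pz ^ d) ^ j) := by
    rw [map_pow pr (pz ^ d) j, map_pow pr (pu * pz ^ d) j, map_mul, pr_pu, one_mul]
  constructor
  · intro h
    have h1 : (QuotientGroup.mk ((pz ^ d) ^ j) : P ⧸ ⁅pr.ker, pr.ker⁆) =
      QuotientGroup.mk ((pu * pz ^ d) ^ j) := h
    rw [QuotientGroup.eq] at h1
    have h2 := comm_v _ h1
    have h3 : Phi ((pz ^ d) ^ j) * Phi (((pz ^ d) ^ j)⁻¹ * (pu * pz ^ d) ^ j) =
        Phi ((pu * pz ^ d) ^ j) := by
      rw [← map_mul, mul_inv_cancel_left]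
    have h4 := congrArg Aff.v h3
    rw [Aff.mul_v, h2, smul_zero, add_zero, v1, v2] at h4
    exact (congrArg (fun y : RR => y.2.2) h4).symm
  · intro h
    apply mk_eq _ _ hp
    rw [v1, v2, h]
    rfl

theorem sum_zt (d j : ℕ) (h : ∑ i ∈ Finset.range j, (rt ^ d) ^ i = 0) : 2 * KK ∣ d * j := by
  have h1 : AdjoinRoot.mk ff (∑ i ∈ Finset.range j, (X ^ d) ^ i : ℤ[X]) = 0 := by
    rw [map_sum]
    simp only [map_pow, AdjoinRoot.mk_X]
    exact h
  have h2 := mk_zero _ h1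
  rw [map_sum] at h2
  simp only [map_pow, aeval_X] at h2
  have h3 := mul_geom_sum (zt ^ d) j
  rw [h2, mul_zero] at h3
  apply zt_prim.dvd_of_pow_eq_one
  rw [pow_mul]
  exact (sub_eq_zero.1 h3.symm)

theorem sum_mul {S : Type*} [CommRing S] (x : S) (n q : ℕ)
    (h : ∑ i ∈ Finset.range n, x ^ i = 0) : ∑ i ∈ Finset.range (n * q), x ^ i = 0 := by
  induction q with
  | zero => simp
  | succ q ih =>
    rw [mul_add, mul_one, Finset.sum_range_add, ih, zero_add]
    simp only [pow_add]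
    rw [← Finset.mul_sum, h, mul_zero]

end Pool.Agent.Y437.TL.Cyc
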