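import Mathlib
import Pool.Agent.Y437.TL.Cyc

set_option autoImplicit false

/-!
The exponents for which the powers of the two elements agree.
-/

namespace Pool.Agent.Y437.TL.Cyc

open Polynomial

variable [Mm]

theorem geom_half {S : Type*} [CommRing S] (y : S) (C : ℕ) (h : y ^ C = -1) :
    ∑ i ∈ Finset.range (2 * C), y ^ i = 0 := by
  rw [two_mul, Finset.sum_range_add]
  simp only [pow_add]
  rw [← Finset.mul_sum, h]
  ring

theorem geom_sq : ∑ i ∈ Finset.range kk, ((X : ℤ[X]) ^ 2) ^ i =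
    FF X * ∑ i ∈ Finset.range kk, X ^ i := by
  have h0 : (X ^ 2 - 1 : ℤ[X]) ≠ 0 := by
    have := (monic_X_pow_sub_C (1 : ℤ) (n := 2) (by norm_num)).ne_zero
    simpa using this
  apply mul_left_cancel₀ h0
  have h1 := mul_geom_sum ((X : ℤ[X]) ^ 2) kk
  have h2 := mul_geom_sum (X : ℤ[X]) kk
  have h3 := add_one_mul_FF (X : ℤ[X])
  rw [h1]
  have h4 : ((X : ℤ[X]) ^ 2) ^ kk = (X ^ kk) ^ 2 := by rw [← pow_mul, ← pow_mul, mul_comm]
  rw [h4]
  calc ((X : ℤ[X]) ^ kk) ^ 2 - 1 = ((X : ℤ[X]) ^ kk + 1) * ((X : ℤ[X]) ^ kk - 1) := by ring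
    _ = (((X : ℤ[X]) + 1) * FF X) * (((X : ℤ[X]) - 1) * ∑ i ∈ Finset.range kk, (X : ℤ[X]) ^ i) := by
      rw [h2, h3]
    _ = ((X : ℤ[X]) ^ 2 - 1) * (FF X * ∑ i ∈ Finset.range kk, (X : ℤ[X]) ^ i) := by ring

theorem odd_iff (hc : Mm.c = 0) (j : ℕ) :
    (QuotientGroup.mk (pz ^ 2) : P ⧸ ⁅pr.ker, pr.ker⁆) ^ j = (QuotientGroup.mk (pu * pz ^ 2)) ^ j ↔
      kk ∣ j := by
  have hK : KK = kk := by unfold KK; rw [hc, zero_add, one_mul]
  rw [pow_iff]
  constructor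
  · intro h
    have h1 := sum_zt 2 j h
    rw [hK] at h1
    exact Nat.dvd_of_mul_dvd_mul_left two_pos h1
  · rintro ⟨q, rfl⟩
    apply sum_mul
    have h1 := congrArg (AdjoinRoot.mk (ff : ℤ[X])) geom_sq
    rw [map_sum, map_mul, map_FF] at h1
    simp only [map_pow, AdjoinRoot.mk_X] at h1
    have h2 : FF rt = 0 := by
      have := GG_rt
      unfold GG at this
      rwa [hc, zero_add, pow_one] at this
    exact h1.trans (by
      show FF rt * _ = 0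
      rw [h2, zero_mul])

theorem even_iff (hn : Mm.n = 0) (j : ℕ) :
    (QuotientGroup.mk (pz ^ 3) : P ⧸ ⁅pr.ker, pr.ker⁆) ^ j = (QuotientGroup.mk (pu * pz ^ 3)) ^ j ↔
      2 * (Mm.c + 1) ∣ j := by
  have hK : KK = (Mm.c + 1) * 3 := by unfold KK kk; rw [hn]
  rw [pow_iff]
  constructor
  · intro h
    have h1 := sum_zt 3 j h
    rw [hK] at h1
    apply Nat.dvd_of_mul_dvd_mul_left (k := 3) (by norm_num)
    have e : 3 * (2 * (Mm.c + 1)) = 2 * ((Mm.c + 1) * 3) := by ring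
    rw [e]
    exact h1
  · rintro ⟨q, rfl⟩
    apply sum_mul
    apply geom_half
    rw [← pow_mul, mul_comm, ← hK, rt_pow]

end Pool.Agent.Y437.TL.Cyc
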