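import Mathlib
import Pool.Agent.Y437.TL.Grp
import Pool.Agent.Helper867.PF.FreeRes

set_option autoImplicit false

/-!
The group `P` is residually a finite 2-group.
-/

namespace Pool.Agent.Y437.TL

open Pool.Agent.Helper867.PF

variable [Mm]

section

variable (Q : Type) [Group Q] (q : ℕ)

/-- shift action on functions -/
def shiftAct : Multiplicative (ZMod q) →* MulAut (ZMod q → Q) where
  toFun a :=
    { toFun := fun F x => F (x + Multiplicative.toAdd a)
      invFun := fun F x => F (x - Multiplicative.toAdd a)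
      left_inv := fun F => by funext x; simp
      right_inv := fun F => by funext x; simp
      map_mul' := fun F G => rfl }
  map_one' := by ext F x; simp
  map_mul' a b := by
    ext F x
    simp only [MulAut.mul_apply, MulEquiv.coe_mk, Equiv.coe_fn_mk, toAdd_mul]
    rw [add_assoc]

theorem shiftAct_apply (a : Multiplicative (ZMod q)) (F : ZMod q → Q) (x : ZMod q) :
    shiftAct Q q a F x = F (x + Multiplicative.toAdd a) := rfl

/-- the wreath product -/
abbrev Wr : Type := (ZMod q → Q) ⋊[shiftAct Q q] Multiplicative (ZMod q)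

end

theorem wr_isPGroup (Q : Type) [Group Q] [Finite Q] (hQ : IsPGroup 2 Q) (j : ℕ) :
    IsPGroup 2 (Wr Q (2 ^ j)) := by
  have : Fact (Nat.Prime 2) := ⟨Nat.prime_two⟩
  have : NeZero (2 ^ j) := ⟨by positivity⟩
  obtain ⟨m, hm⟩ := IsPGroup.iff_card.mp hQ
  apply IsPGroup.of_card (n := m * 2 ^ j + j)
  rw [SemidirectProduct.card, Nat.card_fun, hm]
  have h1 : Nat.card (ZMod (2 ^ j)) = 2 ^ j := Nat.card_zmod _
  have h2 : Nat.card (Multiplicative (ZMod (2 ^ j))) = 2 ^ j := Nat.card_zmod _
  rw [h1, h2, pow_add, pow_mul]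

instance wr_finite (Q : Type) [Group Q] [Finite Q] (j : ℕ) : Finite (Wr Q (2 ^ j)) := by
  have : NeZero (2 ^ j) := ⟨by positivity⟩
  have : Finite (Multiplicative (ZMod (2 ^ j))) := inferInstanceAs (Finite (ZMod (2 ^ j)))
  exact Finite.of_equiv _ SemidirectProduct.equivProd.symm

section Build

variable {Q : Type} [Group Q] (f : FreeGroup Ix →* Q) (q : ℕ) [NeZero q]

/-- values along the orbit -/
def S0 (i : ℤ) : Q := f ((theta ^ i) gt)

theorem S0_succ (i : ℤ) : S0 f (i + 1) = rel (f (gz i)) (f (gu i)) * S0 f i := by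
  unfold S0
  rw [zpow_add_one, MulAut.mul_apply, theta_gt, map_mul, map_mul]
  have : (theta ^ i) (rel (gz 0) (gu 0)) = rel (gz i) (gu i) := by
    have h := map_rel ((theta ^ i : MulAut (FreeGroup Ix)).toMonoidHom) (gz 0) (gu 0)
    simp only [MulEquiv.toMonoidHom_eq_coe, MonoidHom.coe_coe] at h
    rw [h, theta_zpow_gz, theta_zpow_gu, zero_add]
  rw [this, map_rel]

/-- the function attached to `t` -/
def SS (x : ZMod q) : Q := S0 f x.valMinAbs

open Classical in
/-- the function attached to `z` -/
noncomputable def Fz (x : ZMod q) : Q :=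
  if (x + 1).valMinAbs = x.valMinAbs + 1 then f (gz x.valMinAbs) else 1

open Classical in
/-- the function attached to `u` -/
noncomputable def Fu (x : ZMod q) : Q :=
  if (x + 1).valMinAbs = x.valMinAbs + 1 then f (gu x.valMinAbs)
    else SS f q (x + 1) * (SS f q x)⁻¹

theorem SS_succ (x : ZMod q) :
    SS f q (x + 1) = rel (Fz f q x) (Fu f q x) * SS f q x := by
  by_cases h : (x + 1).valMinAbs = x.valMinAbs + 1
  · simp only [Fz, Fu, if_pos h]
    unfold SS
    rw [h, S0_succ]
  · simp only [Fz, Fu, if_neg h]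
    rw [rel_one_left]; simp

theorem Fz_eq (i : ℤ) (h1 : -(q : ℤ) < 2 * i) (h2 : 2 * (i + 1) ≤ q) :
    Fz f q (i : ZMod q) = f (gz i) := by
  have e1 : ((i : ℤ) : ZMod q).valMinAbs = i := by
    rw [ZMod.valMinAbs_spec]
    exact ⟨rfl, by constructor <;> linarith⟩
  have e2 : (((i : ℤ) : ZMod q) + 1).valMinAbs = i + 1 := by
    rw [ZMod.valMinAbs_spec]
    exact ⟨by push_cast; rfl, by constructor <;> linarith⟩
  unfold Fz
  rw [e1, e2, if_pos rfl]

theorem Fu_eq (i : ℤ) (h1 : -(q : ℤ) < 2 * i) (h2 : 2 * (i + 1) ≤ q) :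
    Fu f q (i : ZMod q) = f (gu i) := by
  have e1 : ((i : ℤ) : ZMod q).valMinAbs = i := by
    rw [ZMod.valMinAbs_spec]
    exact ⟨rfl, by constructor <;> linarith⟩
  have e2 : (((i : ℤ) : ZMod q) + 1).valMinAbs = i + 1 := by
    rw [ZMod.valMinAbs_spec]
    exact ⟨by push_cast; rfl, by constructor <;> linarith⟩
  unfold Fu
  rw [e1, e2, if_pos rfl]

/-- images of the letters -/
noncomputable def wrFun : Ix → (ZMod q → Q)
  | none => SS f q
  | some (i, false) => fun x => Fz f q (x + i)
  | some (i, true) => fun x => Fu f q (x + i)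

theorem wrFun_compat (k : FreeGroup Ix) :
    (SemidirectProduct.inl : (ZMod q → Q) →* Wr Q q).comp (FreeGroup.lift (wrFun f q)) (theta k) =
      (SemidirectProduct.inr (Multiplicative.ofAdd 1) : Wr Q q) *
      (SemidirectProduct.inl : (ZMod q → Q) →* Wr Q q).comp (FreeGroup.lift (wrFun f q)) k *
      (SemidirectProduct.inr (Multiplicative.ofAdd 1) : Wr Q q)⁻¹ := by
  have key : (FreeGroup.lift (wrFun f q)).comp theta.toMonoidHom =
      (shiftAct Q q (Multiplicative.ofAdd 1)).toMonoidHom.comp (FreeGroup.lift (wrFun f q)) := by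
    apply FreeGroup.ext_hom
    rintro (_ | ⟨i, e⟩)
    · show FreeGroup.lift (wrFun f q) (theta gt) =
        shiftAct Q q (Multiplicative.ofAdd 1) (FreeGroup.lift (wrFun f q) gt)
      rw [theta_gt, map_mul, map_rel]
      simp only [gz, gu, gt, FreeGroup.lift_apply_of, wrFun]
      funext x
      rw [shiftAct_apply, toAdd_ofAdd, SS_succ]
      simp [rel, rel0]
    · show FreeGroup.lift (wrFun f q) (theta (FreeGroup.of (some (i, e)))) =
        shiftAct Q q (Multiplicative.ofAdd 1)
          (FreeGroup.lift (wrFun f q) (FreeGroup.of (some (i, e))))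
      rw [theta_of]
      simp only [thetaFun, FreeGroup.lift_apply_of]
      cases e
      · simp only [wrFun]
        funext x
        rw [shiftAct_apply, toAdd_ofAdd]
        push_cast
        congr 1; ring
      · simp only [wrFun]
        funext x
        rw [shiftAct_apply, toAdd_ofAdd]
        push_cast
        congr 1; ring
  have key2 : FreeGroup.lift (wrFun f q) (theta k) =
      shiftAct Q q (Multiplicative.ofAdd 1) (FreeGroup.lift (wrFun f q) k) :=
    DFunLike.congr_fun key k
  rw [MonoidHom.comp_apply, key2, SemidirectProduct.inl_aut, map_inv]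
  rfl

/-- the homomorphism to the wreath product -/
noncomputable def toWr : P →* Wr Q q :=
  liftK ((SemidirectProduct.inl : (ZMod q → Q) →* Wr Q q).comp (FreeGroup.lift (wrFun f q)))
    (SemidirectProduct.inr (Multiplicative.ofAdd 1)) (wrFun_compat f q)

theorem toWr_inl (k : FreeGroup Ix) :
    toWr f q (SemidirectProduct.inl k) = SemidirectProduct.inl (FreeGroup.lift (wrFun f q) k) := by
  rw [toWr, liftK_inl]; rfl

/-- bound on the indices of the letters of a word -/
def idxBound (l : List (Ix × Bool)) : ℕ :=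
  (l.map (fun x => match x.1 with | none => 0 | some (i, _) => i.natAbs)).sum

theorem idxBound_le (l : List (Ix × Bool)) (i : ℤ) (b c : Bool) (h : ((some (i, b) : Ix), c) ∈ l) :
    i.natAbs ≤ idxBound l := by
  unfold idxBound
  apply List.single_le_sum (by simp)
  rw [List.mem_map]
  exact ⟨_, h, rfl⟩

theorem eval_eq (l : List (Ix × Bool)) (hq : 2 * (idxBound l + 1) ≤ q) :
    (FreeGroup.lift (wrFun f q) (FreeGroup.mk l)) 0 = f (FreeGroup.mk l) := by
  have h1 : (FreeGroup.lift (wrFun f q) (FreeGroup.mk l)) 0 =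
      FreeGroup.lift (fun x => wrFun f q x 0) (FreeGroup.mk l) := by
    have : (Pi.evalMonoidHom (fun _ : ZMod q => Q) 0).comp (FreeGroup.lift (wrFun f q)) =
        FreeGroup.lift (fun x => wrFun f q x 0) := by
      apply FreeGroup.ext_hom
      intro x
      simp [FreeGroup.lift_apply_of]
    exact DFunLike.congr_fun this (FreeGroup.mk l)
  have h2 : f (FreeGroup.mk l) = FreeGroup.lift (fun x => f (FreeGroup.of x)) (FreeGroup.mk l) := by
    have : f = FreeGroup.lift (fun x => f (FreeGroup.of x)) := by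
      apply FreeGroup.ext_hom
      intro x
      simp [FreeGroup.lift_apply_of]
    exact DFunLike.congr_fun this _
  rw [h1, h2, FreeGroup.lift_mk, FreeGroup.lift_mk]
  congr 1
  apply List.map_congr_left
  rintro ⟨x, c⟩ hx
  have hval : wrFun f q x 0 = f (FreeGroup.of x) := by
    rcases x with _ | ⟨i, b⟩
    · show SS f q 0 = f gt
      unfold SS S0
      rw [ZMod.valMinAbs_zero]; simp
    · have hi := idxBound_le l i b c hx
      have hi1 : -(q : ℤ) < 2 * i := by omega
      have hi2 : 2 * (i + 1) ≤ (q : ℤ) := by omega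
      cases b
      · show Fz f q (0 + (i : ZMod q)) = f (gz i)
        rw [zero_add, Fz_eq f q i hi1 hi2]
      · show Fu f q (0 + (i : ZMod q)) = f (gu i)
        rw [zero_add, Fu_eq f q i hi1 hi2]
  simp only [hval]

end Build

/-- `P` is residually a finite 2-group -/
theorem P_res (x : P) (hx : x ≠ 1) :
    ∃ (W : Type) (_ : Group W) (_ : Group.IsNilpotent W) (g : P →* W), g x ≠ 1 := by
  by_cases hr : x.right = 1
  · set k := x.left with hk
    have hxk : x = SemidirectProduct.inl k := by
      rw [← SemidirectProduct.inl_left_mul_inr_right x, hr, map_one, mul_one]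
    have hk1 : k ≠ 1 := by
      intro h; rw [h, map_one] at hxk; exact hx hxk
    obtain ⟨Q, _, _, f, hQ, hf⟩ := free_res k hk1
    set l := k.toWord with hl
    have hkl : k = FreeGroup.mk l := (FreeGroup.mk_toWord).symm
    set j := 2 * (idxBound l + 1) with hj
    have : NeZero (2 ^ j) := ⟨by positivity⟩
    have : Fact (Nat.Prime 2) := ⟨Nat.prime_two⟩
    refine ⟨Wr Q (2 ^ j), inferInstance, (wr_isPGroup Q hQ j).isNilpotent, toWr f (2 ^ j), ?_⟩
    intro h
    rw [hxk, toWr_inl] at h
    have h2 := SemidirectProduct.inl_injective (h.trans (map_one _).symm)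
    have h3 := eval_eq f (2 ^ j) l (by
      have : j < 2 ^ j := Nat.lt_two_pow_self
      omega)
    rw [← hkl, h2] at h3
    exact hf h3.symm
  · exact ⟨Multiplicative ℤ, inferInstance, inferInstance, SemidirectProduct.rightHom, hr⟩

/-- the lower central series of `P` has trivial intersection -/
theorem P_resNil : (⨅ n, (⊤ : Subgroup P).lowerCentralSeries n) = ⊥ := by
  rw [eq_bot_iff]
  intro x hx
  rw [Subgroup.mem_bot]
  by_contra hne
  obtain ⟨W, _, hW, g, hg⟩ := P_res x hne
  obtain ⟨n, hn⟩ := (Subgroup.nilpotent_iff_lowerCentralSeries (G := W)).mp hW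
  rw [Subgroup.mem_iInf] at hx
  have h1 : g x ∈ ((⊤ : Subgroup P).lowerCentralSeries n).map g := ⟨x, hx n, rfl⟩
  rw [Subgroup.map_lowerCentralSeries] at h1
  have h2 := Subgroup.lowerCentralSeries_mono n (le_top : (⊤ : Subgroup P).map g ≤ ⊤) h1
  have h3 : g x ∈ (⊤ : Subgroup W).lowerCentralSeries n := h2
  rw [hn] at h3
  exact hg h3

end Pool.Agent.Y437.TL
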